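import Pool.Agent.Q214.LO.Geo
import Pool.Agent.Q214.LO.Site

/-!
The O(n) loop model on the honeycomb lattice with a path, for every `n > 0` and every `x > 0`: the
joint law of the path, of the total number of edges and of the number of closed loops hardly changes
when the number of edges is shifted by two or the number of loops by one.
-/

set_option autoImplicit false

namespace Pool.Agent.Results.MP_4960b8_pr.EdgesAndLoops

open scoped Classical

/-- Adjacency in the honeycomb lattice (brick-wall coordinates). -/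
def Nbr (p q : ℤ × ℤ) : Prop :=
  (p.2 = q.2 ∧ (p.1 - q.1 = 1 ∨ q.1 - p.1 = 1)) ∨
    (p.1 = q.1 ∧ ((q.2 = p.2 + 1 ∧ Even (p.1 + p.2)) ∨ (p.2 = q.2 + 1 ∧ Even (q.1 + q.2))))

/-- The position of the vertices in the plane: the honeycomb lattice with unit edge length. -/
noncomputable def emb (v : ℤ × ℤ) : ℂ :=
  ⟨Real.sqrt 3 / 2 * v.1, 3 / 2 * v.2 + if Even (v.1 + v.2) then 1 / 2 else 0⟩

/-- The number of edges of `ω` at `v`. -/
noncomputable def deg (ω : Finset (Sym2 (ℤ × ℤ))) (v : ℤ × ℤ) : ℕ :=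
  Set.ncard {u : ℤ × ℤ | s(v, u) ∈ ω}

/-- The configurations: sets of edges between vertices of `D` such that every vertex has degree
`0` or `2`, except `a` and `b`, which have degree `1`. -/
def Config (D : Set (ℤ × ℤ)) (a b : ℤ × ℤ) (ω : Finset (Sym2 (ℤ × ℤ))) : Prop :=
  (∀ u v, s(u, v) ∈ ω → Nbr u v ∧ u ∈ D ∧ v ∈ D) ∧ deg ω a = 1 ∧ deg ω b = 1 ∧
    ∀ v, v ≠ a → v ≠ b → deg ω v = 0 ∨ deg ω v = 2

/-- The vertices which are connected to `v` in `ω`. -/
def comp (ω : Finset (Sym2 (ℤ × ℤ))) (v : ℤ × ℤ) : Set (ℤ × ℤ) :=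
  {u | Relation.ReflTransGen (fun p q => s(p, q) ∈ ω) v u}

/-- The path `γ(ω)`: the edges of `ω` which are connected to `a`. -/
noncomputable def path (a : ℤ × ℤ) (ω : Finset (Sym2 (ℤ × ℤ))) : Finset (Sym2 (ℤ × ℤ)) :=
  ω.filter (fun e => ∀ v ∈ e, v ∈ comp ω a)

/-- The number `M` of closed loops: the number of connected components in which every vertex has
degree `2`. -/
noncomputable def loops (ω : Finset (Sym2 (ℤ × ℤ))) : ℕ :=
  Set.ncard {A : Set (ℤ × ℤ) | ∃ v, A = comp ω v ∧ ∀ u ∈ A, deg ω u = 2}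

/-- The weight of the configurations with the property `E`, each with the weight `x ^ L n ^ M`. -/
noncomputable def weight (x n : ℝ) (D : Set (ℤ × ℤ)) (a b : ℤ × ℤ)
    (E : Finset (Sym2 (ℤ × ℤ)) → Prop) : ℝ :=
  ∑ᶠ ω ∈ {ω | Config D a b ω ∧ E ω}, x ^ ω.card * n ^ loops ω

/-- The probability of `E`. -/
noncomputable def prob (x n : ℝ) (D : Set (ℤ × ℤ)) (a b : ℤ × ℤ)
    (E : Finset (Sym2 (ℤ × ℤ)) → Prop) : ℝ :=
  weight x n D a b E / weight x n D a b (fun _ => True)

theorem weight_eq (x n : ℝ) (D : Set (ℤ × ℤ)) (hD : D.Finite) (a b : ℤ × ℤ)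
    (E : Finset (Sym2 (ℤ × ℤ)) → Prop) : weight x n D a b E =
      ∑ ω ∈ Q214.LO.TB D hD a b, Q214.LO.wt x n ω * (if E ω then 1 else 0) := by
  have e1 : {ω | Config D a b ω ∧ E ω} =
      (((Q214.LO.TB D hD a b).filter E : Finset (Finset (Sym2 (ℤ × ℤ)))) :
        Set (Finset (Sym2 (ℤ × ℤ)))) := by
    ext ω
    rw [Finset.mem_coe, Finset.mem_filter, Q214.LO.mem_TB hD]
    rfl
  unfold weight
  rw [e1, finsum_mem_coe_finset, Finset.sum_filter]
  refine Finset.sum_congr rfl fun ω _ => ?_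
  split_ifs
  · rw [mul_one]
    rfl
  · rw [mul_zero]

theorem norm_emb (a b : ℤ × ℤ) (hab : a ≠ b) : ‖emb a - emb b‖ ≤ 2 * (Q214.LO.lev a b : ℝ) := by
  have h1 : ‖emb a - emb b‖ ≤ |(emb a - emb b).re| + |(emb a - emb b).im| :=
    Complex.norm_le_abs_re_add_abs_im _
  have h2 : (emb a - emb b).re = Real.sqrt 3 / 2 * ((a.1 : ℝ) - b.1) := by
    unfold emb
    simp only [Complex.sub_re]
    ring
  have h3 : |(emb a - emb b).im| ≤ 3 / 2 * |(a.2 : ℝ) - b.2| + 1 / 2 := by
    unfold emb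
    simp only [Complex.sub_im]
    have h4 : |(if Even (a.1 + a.2) then (1 : ℝ) / 2 else 0) -
        (if Even (b.1 + b.2) then (1 : ℝ) / 2 else 0)| ≤ 1 / 2 := by
      split_ifs <;> norm_num
    calc |3 / 2 * (a.2 : ℝ) + (if Even (a.1 + a.2) then (1 : ℝ) / 2 else 0) -
          (3 / 2 * (b.2 : ℝ) + (if Even (b.1 + b.2) then (1 : ℝ) / 2 else 0))| =
          |3 / 2 * ((a.2 : ℝ) - b.2) + ((if Even (a.1 + a.2) then (1 : ℝ) / 2 else 0) -
          (if Even (b.1 + b.2) then (1 : ℝ) / 2 else 0))| := by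
          congr 1
          ring
      _ ≤ |3 / 2 * ((a.2 : ℝ) - b.2)| + |(if Even (a.1 + a.2) then (1 : ℝ) / 2 else 0) -
          (if Even (b.1 + b.2) then (1 : ℝ) / 2 else 0)| := abs_add_le _ _
      _ ≤ 3 / 2 * |(a.2 : ℝ) - b.2| + 1 / 2 := by
          rw [abs_mul, abs_of_pos (show (0 : ℝ) < 3 / 2 by norm_num)]
          linarith
  have h5 : |(emb a - emb b).re| ≤ |(a.1 : ℝ) - b.1| := by
    rw [h2, abs_mul]
    have h6 : |Real.sqrt 3 / 2| ≤ 1 := by
      rw [abs_of_nonneg (by positivity), div_le_one (by norm_num)]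
      rw [show (2 : ℝ) = √4 by
        rw [show (4 : ℝ) = 2 ^ 2 by norm_num, Real.sqrt_sq (by norm_num)]]
      exact Real.sqrt_le_sqrt (by norm_num)
    calc |Real.sqrt 3 / 2| * |(a.1 : ℝ) - b.1| ≤ 1 * |(a.1 : ℝ) - b.1| :=
          mul_le_mul_of_nonneg_right h6 (abs_nonneg _)
      _ = _ := one_mul _
  have h7 : (Q214.LO.lev a b : ℝ) = |(a.1 : ℝ) - b.1| + |(a.2 : ℝ) - b.2| := by
    unfold Q214.LO.lev
    push_cast
    rw [Nat.cast_natAbs, Nat.cast_natAbs]
    push_cast
    rw [abs_sub_comm (b.1 : ℝ), abs_sub_comm (b.2 : ℝ)]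
  have h8 : (1 : ℝ) ≤ Q214.LO.lev a b := by
    have : 1 ≤ Q214.LO.lev a b := by
      by_contra hc
      apply hab
      unfold Q214.LO.lev at hc
      ext <;> omega
    exact_mod_cast this
  have h9 := abs_nonneg ((a.1 : ℝ) - b.1)
  have h10 := abs_nonneg ((a.2 : ℝ) - b.2)
  rw [h7] at h8 ⊢
  linarith

/-- **Theorem.** Let `n > 0` and `x > 0` (for instance `n ∈ (0, 2]`, `x = x_c(n)` or `x > x_c(n)`).
There is `C` such that for every finite set `D` of vertices which contains all vertices at distance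
at most `R` from some vertex `o`, `R ≥ 1`, in units of the mesh, and all `a`, `b`, the O(n)
configuration `ω` in `D` with the path `γ` from `a` to `b`, `L` edges and `M` closed loops satisfies
for every property `U`: the probabilities of `U (γ, L + 2, M)` and of `U (γ, L, M + 1)` differ from
the probability of `U (γ, L, M)` by at most `C / R`. -/
theorem result (n x : ℝ) (hn : 0 < n) (hx : 0 < x) : ∃ C : ℝ, 0 < C ∧
    ∀ D : Set (ℤ × ℤ), D.Finite → ∀ (a b o : ℤ × ℤ) (R : ℝ), 1 ≤ R →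
      (∀ v : ℤ × ℤ, ‖emb v - emb o‖ ≤ R → v ∈ D) →
      ∀ U : Finset (Sym2 (ℤ × ℤ)) → ℕ → ℕ → Prop,
        |prob x n D a b (fun ω => U (path a ω) (ω.card + 2) (loops ω)) -
          prob x n D a b (fun ω => U (path a ω) ω.card (loops ω))| ≤ C / R ∧
        |prob x n D a b (fun ω => U (path a ω) ω.card (loops ω + 1)) -
          prob x n D a b (fun ω => U (path a ω) ω.card (loops ω))| ≤ C / R := by
  obtain ⟨C, hC, h⟩ := Q214.LO.bulk_main x n hx hn
  refine ⟨C * 56, by positivity, ?_⟩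
  intro D hD a b o R hR hRD U
  have hR0 : 0 < R := by linarith
  obtain ⟨s, hs⟩ : ∃ s, s = ⌊R / 56⌋₊ := ⟨_, rfl⟩
  have hs1 : (s : ℝ) ≤ R / 56 := by
    rw [hs]
    exact Nat.floor_le (by positivity)
  have hs2 : R / 56 < s + 1 := by
    rw [hs]
    exact Nat.lt_floor_add_one _
  have hbox : ∀ u : ℤ × ℤ, (u.1 - o.1).natAbs ≤ 10 * s → (u.2 - o.2).natAbs ≤ 18 * s → u ∈ D := by
    intro u h1 h2
    apply hRD
    by_cases huo : u = o
    · rw [huo, sub_self, norm_zero]
      exact hR0.le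
    · have h3 := norm_emb u o huo
      have h4 : Q214.LO.lev u o ≤ 28 * s := by
        unfold Q214.LO.lev
        omega
      have h5 : (Q214.LO.lev u o : ℝ) ≤ 28 * s := by exact_mod_cast h4
      linarith
  have h1 := h D hD a b o s hbox U
  have e0 : weight x n D a b (fun _ => True) =
      ∑ ω ∈ Q214.LO.TB D hD a b, Q214.LO.wt x n ω := by
    rw [weight_eq x n D hD a b]
    refine Finset.sum_congr rfl fun ω _ => ?_
    rw [if_pos trivial, mul_one]
  have e1 : weight x n D a b (fun ω => U (path a ω) (ω.card + 2) (loops ω)) =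
      ∑ ω ∈ Q214.LO.TB D hD a b, Q214.LO.wt x n ω *
        (if U (Q214.LO.path a ω) (ω.card + 2) (Q214.LO.loops ω) then 1 else 0) :=
    weight_eq x n D hD a b _
  have e2 : weight x n D a b (fun ω => U (path a ω) ω.card (loops ω)) =
      ∑ ω ∈ Q214.LO.TB D hD a b, Q214.LO.wt x n ω *
        (if U (Q214.LO.path a ω) ω.card (Q214.LO.loops ω) then 1 else 0) :=
    weight_eq x n D hD a b _
  have e3 : weight x n D a b (fun ω => U (path a ω) ω.card (loops ω + 1)) =
      ∑ ω ∈ Q214.LO.TB D hD a b, Q214.LO.wt x n ω *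
        (if U (Q214.LO.path a ω) ω.card (Q214.LO.loops ω + 1) then 1 else 0) :=
    weight_eq x n D hD a b _
  rw [← e1, ← e2, ← e3, ← e0] at h1
  have hW : 0 ≤ weight x n D a b (fun _ => True) := by
    rw [e0]
    refine Finset.sum_nonneg fun ω _ => ?_
    unfold Q214.LO.wt
    positivity
  have h2 : C / ((s : ℝ) + 1) ≤ C * 56 / R := by
    rw [div_le_div_iff₀ (by positivity) hR0]
    have h3 : R ≤ 56 * ((s : ℝ) + 1) := by linarith
    calc C * R ≤ C * (56 * ((s : ℝ) + 1)) := mul_le_mul_of_nonneg_left h3 hC.le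
      _ = _ := by ring
  have key : ∀ A B : ℝ, |A - B| ≤ C / ((s : ℝ) + 1) * weight x n D a b (fun _ => True) →
      |A / weight x n D a b (fun _ => True) - B / weight x n D a b (fun _ => True)| ≤
        C * 56 / R := by
    intro A B hAB
    rw [← sub_div, abs_div, abs_of_nonneg hW]
    rcases hW.eq_or_lt with h3 | h3
    · rw [← h3, div_zero]
      positivity
    · rw [div_le_iff₀ h3]
      exact hAB.trans (mul_le_mul_of_nonneg_right h2 hW)
  exact ⟨key _ _ h1.1, key _ _ h1.2⟩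

end Pool.Agent.Results.MP_4960b8_pr.EdgesAndLoops
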