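import Pool.Agent.Q214.LO.Ext

/-!
The boundary path of the O(n) loop model on the honeycomb lattice, for every `n > 0` and every
`x > 0`: the joint law of the length of the path and of finitely many extents of the path (its
diameter, its distance to given points, the event that it hits given sets, ...), of the sides of
finitely many hexagons and of the closed loops hardly changes when the length is shifted by four.
-/

set_option autoImplicit false

namespace Pool.Agent.Results.MP_4960b8_pr.LengthAndExtents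

open scoped Classical

/-- Adjacency in the honeycomb lattice (brick-wall coordinates). -/
def Nbr (p q : ℤ × ℤ) : Prop :=
  (p.2 = q.2 ∧ (p.1 - q.1 = 1 ∨ q.1 - p.1 = 1)) ∨
    (p.1 = q.1 ∧ ((q.2 = p.2 + 1 ∧ Even (p.1 + p.2)) ∨ (p.2 = q.2 + 1 ∧ Even (q.1 + q.2))))

/-- The position of the vertices in the plane: the honeycomb lattice with unit edge length. -/
noncomputable def emb (v : ℤ × ℤ) : ℂ :=
  ⟨Real.sqrt 3 / 2 * v.1, 3 / 2 * v.2 + if Even (v.1 + v.2) then 1 / 2 else 0⟩

/-- The hexagon with the lower left vertex `z` (`z.1 + z.2` even), given by its six vertices. -/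
def hexagon (z : ℤ × ℤ) : Set (ℤ × ℤ) :=
  {v | (z.1 ≤ v.1 ∧ v.1 ≤ z.1 + 2) ∧ (z.2 ≤ v.2 ∧ v.2 ≤ z.2 + 1)}

/-- The vertices of the hexagon `z` and of the six adjacent hexagons. -/
def Flower (z : ℤ × ℤ) : Set (ℤ × ℤ) :=
  {v | ∃ h : ℤ × ℤ, (h = z ∨ h = (z.1 + 2, z.2) ∨ h = (z.1 - 2, z.2) ∨ h = (z.1 + 1, z.2 + 1) ∨
    h = (z.1 - 1, z.2 + 1) ∨ h = (z.1 + 1, z.2 - 1) ∨ h = (z.1 - 1, z.2 - 1)) ∧ v ∈ hexagon h}

/-- `D` is a union of flowers (balls of seven hexagons). -/
def Fat (D : Set (ℤ × ℤ)) : Prop :=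
  ∀ v ∈ D, ∃ z : ℤ × ℤ, Even (z.1 + z.2) ∧ v ∈ Flower z ∧ Flower z ⊆ D

/-- The number of edges of `ω` at `v`. -/
noncomputable def deg (ω : Finset (Sym2 (ℤ × ℤ))) (v : ℤ × ℤ) : ℕ :=
  Set.ncard {u : ℤ × ℤ | s(v, u) ∈ ω}

/-- The configurations: sets of edges between vertices of `D` such that every vertex has degree
`0` or `2`, except `a` and `b`, which have degree `1`. -/
def Config (D : Set (ℤ × ℤ)) (a b : ℤ × ℤ) (ω : Finset (Sym2 (ℤ × ℤ))) : Prop :=
  (∀ u v, s(u, v) ∈ ω → Nbr u v ∧ u ∈ D ∧ v ∈ D) ∧ deg ω a = 1 ∧ deg ω b = 1 ∧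
    ∀ v, v ≠ a → v ≠ b → deg ω v = 0 ∨ deg ω v = 2

/-- The vertices which are connected to `v` in `ω`. -/
def comp (ω : Finset (Sym2 (ℤ × ℤ))) (v : ℤ × ℤ) : Set (ℤ × ℤ) :=
  {u | Relation.ReflTransGen (fun p q => s(p, q) ∈ ω) v u}

/-- The path `γ(ω)`: the edges of `ω` which are connected to `a`. -/
noncomputable def path (a : ℤ × ℤ) (ω : Finset (Sym2 (ℤ × ℤ))) : Finset (Sym2 (ℤ × ℤ)) :=
  ω.filter (fun e => ∀ v ∈ e, v ∈ comp ω a)

/-- The length `ℓ(γ)`: the number of edges of the path. -/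
noncomputable def len (a : ℤ × ℤ) (ω : Finset (Sym2 (ℤ × ℤ))) : ℕ := (path a ω).card

/-- The number `M` of closed loops: the number of connected components in which every vertex has
degree `2`. -/
noncomputable def loops (ω : Finset (Sym2 (ℤ × ℤ))) : ℕ :=
  Set.ncard {A : Set (ℤ × ℤ) | ∃ v, A = comp ω v ∧ ∀ u ∈ A, deg ω u = 2}

/-- The weight of the configurations with the property `E`, each with the weight `x ^ L n ^ M`. -/
noncomputable def weight (x n : ℝ) (D : Set (ℤ × ℤ)) (a b : ℤ × ℤ)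
    (E : Finset (Sym2 (ℤ × ℤ)) → Prop) : ℝ :=
  ∑ᶠ ω ∈ {ω | Config D a b ω ∧ E ω}, x ^ ω.card * n ^ loops ω

/-- The probability of `E`. -/
noncomputable def prob (x n : ℝ) (D : Set (ℤ × ℤ)) (a b : ℤ × ℤ)
    (E : Finset (Sym2 (ℤ × ℤ)) → Prop) : ℝ :=
  weight x n D a b E / weight x n D a b (fun _ => True)

/-- `ω'` is obtained from `ω` by a detour in the hexagon `z`: one edge of the path is replaced by
the other five edges of this hexagon, whose four other vertices are not visited by `ω`. -/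
def Detour (a z : ℤ × ℤ) (ω ω' : Finset (Sym2 (ℤ × ℤ))) : Prop :=
  Even (z.1 + z.2) ∧ ∃ c : Fin 6 → ℤ × ℤ, Function.Injective c ∧
    (∀ j, c j ∈ hexagon z ∧ Nbr (c j) (c (j + 1))) ∧ c 0 ∈ comp ω a ∧ s(c 0, c 1) ∈ ω ∧
    (deg ω (c 2) = 0 ∧ deg ω (c 3) = 0 ∧ deg ω (c 4) = 0 ∧ deg ω (c 5) = 0) ∧
    ω' = (ω \ {s(c 0, c 1)}) ∪
      {s(c 1, c 2), s(c 2, c 3), s(c 3, c 4), s(c 4, c 5), s(c 5, c 0)}

/-- The map `F` notices few detours: for every configuration `ω'` there are at most `J` hexagons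
outside which the removal of a detour of `ω'` does not change the value of `F`. -/
def Few {α : Type} (J : ℕ) (D : Set (ℤ × ℤ)) (a b : ℤ × ℤ) (F : Finset (Sym2 (ℤ × ℤ)) → α) :
    Prop :=
  ∀ ω', Config D a b ω' → ∃ S : Finset (ℤ × ℤ), S.card ≤ J ∧
    ∀ (z : ℤ × ℤ) (ω : Finset (Sym2 (ℤ × ℤ))), z ∉ S → Config D a b ω → Detour a z ω ω' →
      F ω = F ω'

/-- The extent of the path with respect to `ρ`: the supremum of `ρ u v` over the vertices `u`, `v`
of the path. -/
noncomputable def extent (ρ : ℤ × ℤ → ℤ × ℤ → ℝ) (a : ℤ × ℤ) (ω : Finset (Sym2 (ℤ × ℤ))) : ℝ :=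
  sSup {t | ∃ u ∈ comp ω a, ∃ v ∈ comp ω a, t = ρ u v}

/-- The edges which cross the horizontal ray from the centre of the hexagon `z` to the right. -/
def ray (z : ℤ × ℤ) : Set (Sym2 (ℤ × ℤ)) :=
  {e | ∃ t : ℤ, z.1 + 2 ≤ t ∧ e = s((t, z.2), (t, z.2 + 1))}

/-- The path crosses the ray an odd number of times; if `D` is simply connected and `a`, `b` are
boundary vertices, this says on which side of the path the hexagon `z` is. -/
def Side (a : ℤ × ℤ) (ω : Finset (Sym2 (ℤ × ℤ))) (z : ℤ × ℤ) : Prop :=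
  Odd ((path a ω).filter (fun e => e ∈ ray z)).card

theorem weight_eq (x n : ℝ) (D : Set (ℤ × ℤ)) (hD : D.Finite) (a b : ℤ × ℤ)
    (E : Finset (Sym2 (ℤ × ℤ)) → Prop) : weight x n D a b E =
      ∑ ω ∈ Q214.LO.TT D hD a b, Q214.LO.wt x n ω * (if E ω then 1 else 0) := by
  have e1 : {ω | Config D a b ω ∧ E ω} =
      (((Q214.LO.TT D hD a b).filter E : Finset (Finset (Sym2 (ℤ × ℤ)))) :
        Set (Finset (Sym2 (ℤ × ℤ)))) := by
    ext ω
    rw [Finset.mem_coe, Finset.mem_filter, Q214.LO.mem_TT hD]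
    rfl
  unfold weight
  rw [e1, finsum_mem_coe_finset, Finset.sum_filter]
  refine Finset.sum_congr rfl fun ω _ => ?_
  split_ifs
  · rw [mul_one]
    rfl
  · rw [mul_zero]

theorem norm_emb (a b : ℤ × ℤ) (hab : a ≠ b) : ‖emb a - emb b‖ ≤ 2 * (Q214.LO.lev a b : ℝ) := by
  have h1 : ‖emb a - emb b‖ ≤ |(emb a - emb b).re| + |(emb a - emb b).im| :=
    Complex.norm_le_abs_re_add_abs_im _
  have h2 : (emb a - emb b).re = Real.sqrt 3 / 2 * ((a.1 : ℝ) - b.1) := by
    unfold emb
    simp only [Complex.sub_re]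
    ring
  have h3 : |(emb a - emb b).im| ≤ 3 / 2 * |(a.2 : ℝ) - b.2| + 1 / 2 := by
    unfold emb
    simp only [Complex.sub_im]
    have h4 : |(if Even (a.1 + a.2) then (1 : ℝ) / 2 else 0) -
        (if Even (b.1 + b.2) then (1 : ℝ) / 2 else 0)| ≤ 1 / 2 := by
      split_ifs <;> norm_num
    calc |3 / 2 * (a.2 : ℝ) + (if Even (a.1 + a.2) then (1 : ℝ) / 2 else 0) -
          (3 / 2 * (b.2 : ℝ) + (if Even (b.1 + b.2) then (1 : ℝ) / 2 else 0))| =
          |3 / 2 * ((a.2 : ℝ) - b.2) + ((if Even (a.1 + a.2) then (1 : ℝ) / 2 else 0) -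
          (if Even (b.1 + b.2) then (1 : ℝ) / 2 else 0))| := by
          congr 1
          ring
      _ ≤ |3 / 2 * ((a.2 : ℝ) - b.2)| + |(if Even (a.1 + a.2) then (1 : ℝ) / 2 else 0) -
          (if Even (b.1 + b.2) then (1 : ℝ) / 2 else 0)| := abs_add_le _ _
      _ ≤ 3 / 2 * |(a.2 : ℝ) - b.2| + 1 / 2 := by
          rw [abs_mul, abs_of_pos (show (0 : ℝ) < 3 / 2 by norm_num)]
          linarith
  have h5 : |(emb a - emb b).re| ≤ |(a.1 : ℝ) - b.1| := by
    rw [h2, abs_mul]
    have h6 : |Real.sqrt 3 / 2| ≤ 1 := by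
      rw [abs_of_nonneg (by positivity), div_le_one (by norm_num)]
      rw [show (2 : ℝ) = √4 by
        rw [show (4 : ℝ) = 2 ^ 2 by norm_num, Real.sqrt_sq (by norm_num)]]
      exact Real.sqrt_le_sqrt (by norm_num)
    calc |Real.sqrt 3 / 2| * |(a.1 : ℝ) - b.1| ≤ 1 * |(a.1 : ℝ) - b.1| :=
          mul_le_mul_of_nonneg_right h6 (abs_nonneg _)
      _ = _ := one_mul _
  have h7 : (Q214.LO.lev a b : ℝ) = |(a.1 : ℝ) - b.1| + |(a.2 : ℝ) - b.2| := by
    unfold Q214.LO.lev
    push_cast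
    rw [Nat.cast_natAbs, Nat.cast_natAbs]
    push_cast
    rw [abs_sub_comm (b.1 : ℝ), abs_sub_comm (b.2 : ℝ)]
  have h8 : (1 : ℝ) ≤ Q214.LO.lev a b := by
    have : 1 ≤ Q214.LO.lev a b := by
      by_contra hc
      apply hab
      unfold Q214.LO.lev at hc
      ext <;> omega
    exact_mod_cast this
  have h9 := abs_nonneg ((a.1 : ℝ) - b.1)
  have h10 := abs_nonneg ((a.2 : ℝ) - b.2)
  rw [h7] at h8 ⊢
  linarith

/-- **Theorem.** Let `n > 0`, `x > 0` and `J` be numbers (for instance `n ∈ (0, 2]`, `x = x_c(n)` or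
`x > x_c(n)`). There is `C` such that for every finite union `D` of flowers and all vertices
`a ≠ b`, the O(n) configuration `ω` in `D` with the path `γ` from `a` to `b` has the following
properties.
(1) For every map `F` which notices at most `J` detours and every property `U`, the probabilities
of `U (ℓ(γ) + 4, F(ω))` and of `U (ℓ(γ), F(ω))` differ by at most `C |a - b|^(-1/2)`, where
`|a - b|` is the Euclidean distance in units of the mesh.
(2) For all functions `ρ_1, ..., ρ_J`, all hexagons `z_1, ..., z_J` and every property `U` the same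
is true for `F(ω)` = (the extents `sup {ρ_i(u, v) : u, v ∈ γ}`, the sides of the hexagons `z_i`, the
edges of the closed loops). -/
theorem result (n x : ℝ) (hn : 0 < n) (hx : 0 < x) (J : ℕ) : ∃ C : ℝ, 0 < C ∧
    ∀ D : Set (ℤ × ℤ), D.Finite → Fat D → ∀ a b : ℤ × ℤ, a ≠ b →
      (∀ (α : Type) (F : Finset (Sym2 (ℤ × ℤ)) → α), Few J D a b F → ∀ U : ℕ → α → Prop,
        |prob x n D a b (fun ω => U (len a ω + 4) (F ω)) -
          prob x n D a b (fun ω => U (len a ω) (F ω))| ≤ C / √‖emb a - emb b‖) ∧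
      (∀ (ρ : Fin J → ℤ × ℤ → ℤ × ℤ → ℝ) (z : Fin J → ℤ × ℤ), (∀ i, Even ((z i).1 + (z i).2)) →
        ∀ U : ℕ → (Fin J → ℝ) → (Fin J → Prop) → Finset (Sym2 (ℤ × ℤ)) → Prop,
        |prob x n D a b (fun ω => U (len a ω + 4) (fun i => extent (ρ i) a ω)
            (fun i => Side a ω (z i)) (ω \ path a ω)) -
          prob x n D a b (fun ω => U (len a ω) (fun i => extent (ρ i) a ω)
            (fun i => Side a ω (z i)) (ω \ path a ω))| ≤ C / √‖emb a - emb b‖) := by
  obtain ⟨C, hC, h⟩ := Q214.LO.main5 x n hx hn (13 * J)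
  refine ⟨C * √2, by positivity, ?_⟩
  intro D hD hF a b hab
  have key : ∀ (α : Type) (F : Finset (Sym2 (ℤ × ℤ)) → α), Few (13 * J) D a b F →
      ∀ U : ℕ → α → Prop,
      |prob x n D a b (fun ω => U (len a ω + 4) (F ω)) -
        prob x n D a b (fun ω => U (len a ω) (F ω))| ≤ (C * √2) / √‖emb a - emb b‖ := by
    intro α F hFew U
    have h1 := h D hD hF a b hab F hFew U
    have e0 : weight x n D a b (fun _ => True) =
        ∑ ω ∈ Q214.LO.TT D hD a b, Q214.LO.wt x n ω := by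
      rw [weight_eq x n D hD a b]
      refine Finset.sum_congr rfl fun ω _ => ?_
      rw [if_pos trivial, mul_one]
    have e1 : weight x n D a b (fun ω => U (len a ω + 4) (F ω)) =
        ∑ ω ∈ Q214.LO.TT D hD a b, Q214.LO.wt x n ω *
          (if U ((Q214.LO.path a ω).card + 4) (F ω) then 1 else 0) :=
      weight_eq x n D hD a b _
    have e2 : weight x n D a b (fun ω => U (len a ω) (F ω)) =
        ∑ ω ∈ Q214.LO.TT D hD a b, Q214.LO.wt x n ω *
          (if U ((Q214.LO.path a ω).card) (F ω) then 1 else 0) :=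
      weight_eq x n D hD a b _
    rw [← e1, ← e2, ← e0] at h1
    have hW : 0 ≤ weight x n D a b (fun _ => True) := by
      rw [e0]
      refine Finset.sum_nonneg fun ω _ => ?_
      unfold Q214.LO.wt
      positivity
    have hlev : (0 : ℝ) < Q214.LO.lev a b := by
      have : 0 < Q214.LO.lev a b := by
        by_contra hc
        apply hab
        unfold Q214.LO.lev at hc
        ext <;> omega
      exact_mod_cast this
    have hnorm : 0 < ‖emb a - emb b‖ := by
      rw [norm_pos_iff, sub_ne_zero]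
      intro he
      apply hab
      have g1 := congrArg Complex.re he
      have g2 := congrArg Complex.im he
      unfold emb at g1 g2
      simp only at g1 g2
      have g3 : (a.1 : ℝ) = b.1 := by
        have : (0 : ℝ) < Real.sqrt 3 / 2 := by positivity
        exact mul_left_cancel₀ this.ne' g1
      have g4 : a.1 = b.1 := by exact_mod_cast g3
      have g5 : |((a.2 : ℝ) - b.2)| < 1 := by
        have : 3 / 2 * ((a.2 : ℝ) - b.2) = (if Even (b.1 + b.2) then (1 : ℝ) / 2 else 0) -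
            (if Even (a.1 + a.2) then (1 : ℝ) / 2 else 0) := by linarith
        rw [abs_lt]
        split_ifs at this <;> constructor <;> linarith
      have g6 : |a.2 - b.2| < 1 := by exact_mod_cast g5
      have g7 : a.2 = b.2 := by
        rw [abs_lt] at g6
        omega
      exact Prod.ext g4 g7
    have h2 : C / √(Q214.LO.lev a b) ≤ (C * √2) / √‖emb a - emb b‖ := by
      rw [div_le_div_iff₀ (by positivity) (by positivity), mul_assoc]
      refine mul_le_mul_of_nonneg_left ?_ hC.le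
      rw [← Real.sqrt_mul (by norm_num)]
      exact Real.sqrt_le_sqrt (norm_emb a b hab)
    unfold prob
    rw [← sub_div, abs_div, abs_of_nonneg hW]
    rcases hW.eq_or_lt with h3 | h3
    · rw [← h3, div_zero]
      positivity
    · rw [div_le_iff₀ h3]
      exact h1.trans (mul_le_mul_of_nonneg_right h2 hW)
  refine ⟨fun α F hFew U => key α F (fun ω' h' => ?_) U, fun ρ z hz U => ?_⟩
  · obtain ⟨S, hS, hSF⟩ := hFew ω' h'
    exact ⟨S, by omega, hSF⟩
  · exact key _ (fun ω => ((fun i => extent (ρ i) a ω), (fun i => Side a ω (z i)),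
      ω \ path a ω)) (Q214.LO.few_extents hD ρ z hz)
      (fun k (q : (Fin J → ℝ) × (Fin J → Prop) × Finset (Sym2 (ℤ × ℤ))) => U k q.1 q.2.1 q.2.2)

end Pool.Agent.Results.MP_4960b8_pr.LengthAndExtents
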