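import Pool.Agent.Q214.LO.Fin

/-!
The boundary path of the O(n) loop model on the honeycomb lattice, for every `n > 0` and every
`x > 0`: the joint law of the length of the path, of the closed loops and of the sides of finitely
many hexagons hardly changes when the length is shifted by two.
-/

set_option autoImplicit false

namespace Pool.Agent.Results.MP_4960b8_pr.LengthAndLoops

open scoped Classical

/-- Adjacency in the honeycomb lattice (brick-wall coordinates). -/
def Nbr (p q : ℤ × ℤ) : Prop :=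
  (p.2 = q.2 ∧ (p.1 - q.1 = 1 ∨ q.1 - p.1 = 1)) ∨
    (p.1 = q.1 ∧ ((q.2 = p.2 + 1 ∧ Even (p.1 + p.2)) ∨ (p.2 = q.2 + 1 ∧ Even (q.1 + q.2))))

/-- The position of the vertices in the plane: the honeycomb lattice with unit edge length. -/
noncomputable def emb (v : ℤ × ℤ) : ℂ :=
  ⟨Real.sqrt 3 / 2 * v.1, 3 / 2 * v.2 + if Even (v.1 + v.2) then 1 / 2 else 0⟩

/-- The hexagon with the lower left vertex `z` (`z.1 + z.2` even), given by its six vertices. -/
def hexagon (z : ℤ × ℤ) : Set (ℤ × ℤ) :=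
  {v | (z.1 ≤ v.1 ∧ v.1 ≤ z.1 + 2) ∧ (z.2 ≤ v.2 ∧ v.2 ≤ z.2 + 1)}

/-- The vertices of the hexagon `z` and of the six adjacent hexagons. -/
def Flower (z : ℤ × ℤ) : Set (ℤ × ℤ) :=
  {v | ∃ h : ℤ × ℤ, (h = z ∨ h = (z.1 + 2, z.2) ∨ h = (z.1 - 2, z.2) ∨ h = (z.1 + 1, z.2 + 1) ∨
    h = (z.1 - 1, z.2 + 1) ∨ h = (z.1 + 1, z.2 - 1) ∨ h = (z.1 - 1, z.2 - 1)) ∧ v ∈ hexagon h}

/-- `D` is a union of flowers (balls of seven hexagons). -/
def Fat (D : Set (ℤ × ℤ)) : Prop :=
  ∀ v ∈ D, ∃ z : ℤ × ℤ, Even (z.1 + z.2) ∧ v ∈ Flower z ∧ Flower z ⊆ D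

/-- The number of edges of `ω` at `v`. -/
noncomputable def deg (ω : Finset (Sym2 (ℤ × ℤ))) (v : ℤ × ℤ) : ℕ :=
  Set.ncard {u : ℤ × ℤ | s(v, u) ∈ ω}

/-- The configurations: sets of edges between vertices of `D` such that every vertex has degree
`0` or `2`, except `a` and `b`, which have degree `1`. -/
def Config (D : Set (ℤ × ℤ)) (a b : ℤ × ℤ) (ω : Finset (Sym2 (ℤ × ℤ))) : Prop :=
  (∀ u v, s(u, v) ∈ ω → Nbr u v ∧ u ∈ D ∧ v ∈ D) ∧ deg ω a = 1 ∧ deg ω b = 1 ∧
    ∀ v, v ≠ a → v ≠ b → deg ω v = 0 ∨ deg ω v = 2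

/-- The vertices which are connected to `v` in `ω`. -/
def comp (ω : Finset (Sym2 (ℤ × ℤ))) (v : ℤ × ℤ) : Set (ℤ × ℤ) :=
  {u | Relation.ReflTransGen (fun p q => s(p, q) ∈ ω) v u}

/-- The path `γ(ω)`: the edges of `ω` which are connected to `a`. -/
noncomputable def path (a : ℤ × ℤ) (ω : Finset (Sym2 (ℤ × ℤ))) : Finset (Sym2 (ℤ × ℤ)) :=
  ω.filter (fun e => ∀ v ∈ e, v ∈ comp ω a)

/-- The length `ℓ(γ)`: the number of edges of the path. -/
noncomputable def len (a : ℤ × ℤ) (ω : Finset (Sym2 (ℤ × ℤ))) : ℕ := (path a ω).card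

/-- The number `M` of closed loops: the number of connected components in which every vertex has
degree `2`. -/
noncomputable def loops (ω : Finset (Sym2 (ℤ × ℤ))) : ℕ :=
  Set.ncard {A : Set (ℤ × ℤ) | ∃ v, A = comp ω v ∧ ∀ u ∈ A, deg ω u = 2}

/-- The weight of the configurations with the property `E`, each with the weight `x ^ L n ^ M`. -/
noncomputable def weight (x n : ℝ) (D : Set (ℤ × ℤ)) (a b : ℤ × ℤ)
    (E : Finset (Sym2 (ℤ × ℤ)) → Prop) : ℝ :=
  ∑ᶠ ω ∈ {ω | Config D a b ω ∧ E ω}, x ^ ω.card * n ^ loops ω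

/-- The probability of `E`. -/
noncomputable def prob (x n : ℝ) (D : Set (ℤ × ℤ)) (a b : ℤ × ℤ)
    (E : Finset (Sym2 (ℤ × ℤ)) → Prop) : ℝ :=
  weight x n D a b E / weight x n D a b (fun _ => True)

/-- `ω'` is obtained from `ω` by replacing two consecutive edges of the path in the hexagon `z` by
the other four edges of this hexagon, whose three inner vertices are not visited by `ω`. -/
def Flip (a z : ℤ × ℤ) (ω ω' : Finset (Sym2 (ℤ × ℤ))) : Prop :=
  Even (z.1 + z.2) ∧ ∃ c : Fin 6 → ℤ × ℤ, Function.Injective c ∧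
    (∀ j, c j ∈ hexagon z ∧ Nbr (c j) (c (j + 1))) ∧ c 0 ∈ comp ω a ∧
    (s(c 0, c 1) ∈ ω ∧ s(c 1, c 2) ∈ ω) ∧
    (deg ω (c 3) = 0 ∧ deg ω (c 4) = 0 ∧ deg ω (c 5) = 0) ∧
    ω' = (ω \ {s(c 0, c 1), s(c 1, c 2)}) ∪
      {s(c 2, c 3), s(c 3, c 4), s(c 4, c 5), s(c 5, c 0)}

/-- The event `E` is blind off `S`: it does not distinguish two configurations which differ by a
replacement `Flip` at a hexagon which is not in `S`. -/
def Blind (S : Finset (ℤ × ℤ)) (D : Set (ℤ × ℤ)) (a b : ℤ × ℤ)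
    (E : Finset (Sym2 (ℤ × ℤ)) → Prop) : Prop :=
  ∀ (z : ℤ × ℤ) (ω ω' : Finset (Sym2 (ℤ × ℤ))), z ∉ S → Config D a b ω → Config D a b ω' →
    Flip a z ω ω' → (E ω ↔ E ω')

/-- The edges which cross the horizontal ray from the centre of the hexagon `z` to the right. -/
def ray (z : ℤ × ℤ) : Set (Sym2 (ℤ × ℤ)) :=
  {e | ∃ t : ℤ, z.1 + 2 ≤ t ∧ e = s((t, z.2), (t, z.2 + 1))}

/-- The path crosses the ray an odd number of times; if `D` is simply connected and `a`, `b` are
boundary vertices, this says on which side of the path the hexagon `z` is. -/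
def Side (a : ℤ × ℤ) (ω : Finset (Sym2 (ℤ × ℤ))) (z : ℤ × ℤ) : Prop :=
  Odd ((path a ω).filter (fun e => e ∈ ray z)).card

theorem weight_eq (x n : ℝ) (D : Set (ℤ × ℤ)) (hD : D.Finite) (a b : ℤ × ℤ)
    (E : Finset (Sym2 (ℤ × ℤ)) → Prop) : weight x n D a b E =
      ∑ ω ∈ Q214.LO.TT D hD a b, Q214.LO.wt x n ω * (if E ω then 1 else 0) := by
  have e1 : {ω | Config D a b ω ∧ E ω} =
      (((Q214.LO.TT D hD a b).filter E : Finset (Finset (Sym2 (ℤ × ℤ)))) :
        Set (Finset (Sym2 (ℤ × ℤ)))) := by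
    ext ω
    rw [Finset.mem_coe, Finset.mem_filter, Q214.LO.mem_TT hD]
    rfl
  unfold weight
  rw [e1, finsum_mem_coe_finset, Finset.sum_filter]
  refine Finset.sum_congr rfl fun ω _ => ?_
  split_ifs
  · rw [mul_one]
    rfl
  · rw [mul_zero]

theorem norm_emb (a b : ℤ × ℤ) (hab : a ≠ b) : ‖emb a - emb b‖ ≤ 2 * (Q214.LO.lev a b : ℝ) := by
  have h1 : ‖emb a - emb b‖ ≤ |(emb a - emb b).re| + |(emb a - emb b).im| :=
    Complex.norm_le_abs_re_add_abs_im _
  have h2 : (emb a - emb b).re = Real.sqrt 3 / 2 * ((a.1 : ℝ) - b.1) := by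
    unfold emb
    simp only [Complex.sub_re]
    ring
  have h3 : |(emb a - emb b).im| ≤ 3 / 2 * |(a.2 : ℝ) - b.2| + 1 / 2 := by
    unfold emb
    simp only [Complex.sub_im]
    have h4 : |(if Even (a.1 + a.2) then (1 : ℝ) / 2 else 0) -
        (if Even (b.1 + b.2) then (1 : ℝ) / 2 else 0)| ≤ 1 / 2 := by
      split_ifs <;> norm_num
    calc |3 / 2 * (a.2 : ℝ) + (if Even (a.1 + a.2) then (1 : ℝ) / 2 else 0) -
          (3 / 2 * (b.2 : ℝ) + (if Even (b.1 + b.2) then (1 : ℝ) / 2 else 0))| =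
          |3 / 2 * ((a.2 : ℝ) - b.2) + ((if Even (a.1 + a.2) then (1 : ℝ) / 2 else 0) -
          (if Even (b.1 + b.2) then (1 : ℝ) / 2 else 0))| := by
          congr 1
          ring
      _ ≤ |3 / 2 * ((a.2 : ℝ) - b.2)| + |(if Even (a.1 + a.2) then (1 : ℝ) / 2 else 0) -
          (if Even (b.1 + b.2) then (1 : ℝ) / 2 else 0)| := abs_add_le _ _
      _ ≤ 3 / 2 * |(a.2 : ℝ) - b.2| + 1 / 2 := by
          rw [abs_mul, abs_of_pos (show (0 : ℝ) < 3 / 2 by norm_num)]
          linarith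
  have h5 : |(emb a - emb b).re| ≤ |(a.1 : ℝ) - b.1| := by
    rw [h2, abs_mul]
    have h6 : |Real.sqrt 3 / 2| ≤ 1 := by
      rw [abs_of_nonneg (by positivity), div_le_one (by norm_num)]
      rw [show (2 : ℝ) = √4 by
        rw [show (4 : ℝ) = 2 ^ 2 by norm_num, Real.sqrt_sq (by norm_num)]]
      exact Real.sqrt_le_sqrt (by norm_num)
    calc |Real.sqrt 3 / 2| * |(a.1 : ℝ) - b.1| ≤ 1 * |(a.1 : ℝ) - b.1| :=
          mul_le_mul_of_nonneg_right h6 (abs_nonneg _)
      _ = _ := one_mul _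
  have h7 : (Q214.LO.lev a b : ℝ) = |(a.1 : ℝ) - b.1| + |(a.2 : ℝ) - b.2| := by
    unfold Q214.LO.lev
    push_cast
    rw [Nat.cast_natAbs, Nat.cast_natAbs]
    push_cast
    rw [abs_sub_comm (b.1 : ℝ), abs_sub_comm (b.2 : ℝ)]
  have h8 : (1 : ℝ) ≤ Q214.LO.lev a b := by
    have : 1 ≤ Q214.LO.lev a b := by
      by_contra hc
      apply hab
      unfold Q214.LO.lev at hc
      ext <;> omega
    exact_mod_cast this
  have h9 := abs_nonneg ((a.1 : ℝ) - b.1)
  have h10 := abs_nonneg ((a.2 : ℝ) - b.2)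
  rw [h7] at h8 ⊢
  linarith

/-- **Theorem.** Let `n > 0`, `x > 0` and `J` be numbers (for instance `n ∈ (0, 2]`, `x = x_c(n)` or
`x > x_c(n)`). There is `C` such that for every finite union `D` of flowers and all vertices
`a ≠ b`, the O(n) configuration `ω` in `D` with the path `γ` from `a` to `b` has the following
properties.
(1) For all sets `S` of at most `J` hexagons and all events `E_k` which are blind off `S`, the
probabilities of `ω ∈ E_{ℓ(γ) + 2}` and of `ω ∈ E_{ℓ(γ)}` differ by at most `C |a - b|^(-1/2)`, where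
`|a - b|` is the Euclidean distance in units of the mesh.
(2) For all hexagons `z_1, ..., z_J` and every property `U` the probabilities of
`U (ℓ(γ) + 2, sides of z_1, ..., z_J, edges of the closed loops)` and of
`U (ℓ(γ), sides of z_1, ..., z_J, edges of the closed loops)` differ by at most
`C |a - b|^(-1/2)`. -/
theorem result (n x : ℝ) (hn : 0 < n) (hx : 0 < x) (J : ℕ) : ∃ C : ℝ, 0 < C ∧
    ∀ D : Set (ℤ × ℤ), D.Finite → Fat D → ∀ a b : ℤ × ℤ, a ≠ b →
      (∀ S : Finset (ℤ × ℤ), S.card ≤ J → ∀ E : ℕ → Finset (Sym2 (ℤ × ℤ)) → Prop,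
        (∀ k, Blind S D a b (E k)) →
        |prob x n D a b (fun ω => E (len a ω + 2) ω) - prob x n D a b (fun ω => E (len a ω) ω)| ≤
          C / √‖emb a - emb b‖) ∧
      (∀ z : Fin J → ℤ × ℤ, (∀ i, Even ((z i).1 + (z i).2)) →
        ∀ U : ℕ → (Fin J → Prop) → Finset (Sym2 (ℤ × ℤ)) → Prop,
        |prob x n D a b (fun ω => U (len a ω + 2) (fun i => Side a ω (z i)) (ω \ path a ω)) -
          prob x n D a b (fun ω => U (len a ω) (fun i => Side a ω (z i)) (ω \ path a ω))| ≤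
          C / √‖emb a - emb b‖) := by
  obtain ⟨C, hC, h⟩ := Q214.LO.main x n hx hn J
  refine ⟨C * √2, by positivity, ?_⟩
  intro D hD hF a b hab
  have key : ∀ S : Finset (ℤ × ℤ), S.card ≤ J → ∀ E : ℕ → Finset (Sym2 (ℤ × ℤ)) → Prop,
      (∀ k, Blind S D a b (E k)) →
      |prob x n D a b (fun ω => E (len a ω + 2) ω) - prob x n D a b (fun ω => E (len a ω) ω)| ≤
        (C * √2) / √‖emb a - emb b‖ := by
    intro S hS E hE
    have h1 := h D hD hF a b hab S hS E hE
    have e0 : weight x n D a b (fun _ => True) =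
        ∑ ω ∈ Q214.LO.TT D hD a b, Q214.LO.wt x n ω := by
      rw [weight_eq x n D hD a b]
      refine Finset.sum_congr rfl fun ω _ => ?_
      rw [if_pos trivial, mul_one]
    have e1 : weight x n D a b (fun ω => E (len a ω + 2) ω) =
        ∑ ω ∈ Q214.LO.TT D hD a b, Q214.LO.wt x n ω *
          (if E ((Q214.LO.path a ω).card + 2) ω then 1 else 0) :=
      weight_eq x n D hD a b _
    have e2 : weight x n D a b (fun ω => E (len a ω) ω) =
        ∑ ω ∈ Q214.LO.TT D hD a b, Q214.LO.wt x n ω *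
          (if E ((Q214.LO.path a ω).card) ω then 1 else 0) :=
      weight_eq x n D hD a b _
    rw [← e1, ← e2, ← e0] at h1
    have hW : 0 ≤ weight x n D a b (fun _ => True) := by
      rw [e0]
      refine Finset.sum_nonneg fun ω _ => ?_
      unfold Q214.LO.wt
      positivity
    have hlev : (0 : ℝ) < Q214.LO.lev a b := by
      have : 0 < Q214.LO.lev a b := by
        by_contra hc
        apply hab
        unfold Q214.LO.lev at hc
        ext <;> omega
      exact_mod_cast this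
    have hnorm : 0 < ‖emb a - emb b‖ := by
      rw [norm_pos_iff, sub_ne_zero]
      intro he
      apply hab
      have g1 := congrArg Complex.re he
      have g2 := congrArg Complex.im he
      unfold emb at g1 g2
      simp only at g1 g2
      have g3 : (a.1 : ℝ) = b.1 := by
        have : (0 : ℝ) < Real.sqrt 3 / 2 := by positivity
        exact mul_left_cancel₀ this.ne' g1
      have g4 : a.1 = b.1 := by exact_mod_cast g3
      have g5 : |((a.2 : ℝ) - b.2)| < 1 := by
        have : 3 / 2 * ((a.2 : ℝ) - b.2) = (if Even (b.1 + b.2) then (1 : ℝ) / 2 else 0) -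
            (if Even (a.1 + a.2) then (1 : ℝ) / 2 else 0) := by linarith
        rw [abs_lt]
        split_ifs at this <;> constructor <;> linarith
      have g6 : |a.2 - b.2| < 1 := by exact_mod_cast g5
      have g7 : a.2 = b.2 := by
        rw [abs_lt] at g6
        omega
      exact Prod.ext g4 g7
    have h2 : C / √(Q214.LO.lev a b) ≤ (C * √2) / √‖emb a - emb b‖ := by
      rw [div_le_div_iff₀ (by positivity) (by positivity), mul_assoc]
      refine mul_le_mul_of_nonneg_left ?_ hC.le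
      rw [← Real.sqrt_mul (by norm_num)]
      exact Real.sqrt_le_sqrt (norm_emb a b hab)
    unfold prob
    rw [← sub_div, abs_div, abs_of_nonneg hW]
    rcases hW.eq_or_lt with h3 | h3
    · rw [← h3, div_zero]
      positivity
    · rw [div_le_iff₀ h3]
      exact h1.trans (mul_le_mul_of_nonneg_right h2 hW)
  refine ⟨key, fun z hz U => ?_⟩
  refine key (Finset.univ.image z) (Finset.card_image_le.trans (by simp))
    (fun k ω => U k (fun i => Side a ω (z i)) (ω \ path a ω)) fun k => ?_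
  exact Q214.LO.blind_sides z hz D a b (U k)

end Pool.Agent.Results.MP_4960b8_pr.LengthAndLoops
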