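import Pool.Agent.Q214.SF.HexD
import Pool.Agent.Q214.ON.HexF

/-!
The boundary path of the O(n) model for `n = 0`, `x = x_c(0)` (critical self-avoiding walk on the
honeycomb lattice) in discrete domains: the joint law of the number of steps of the path and of its
position relative to finitely many hexagons (on which side of the path they are) hardly changes
when the number of steps is shifted by four.
-/

set_option autoImplicit false

namespace Pool.Agent.Results.MP_4960b8_pr.SidesOfHexagons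

/-- Adjacency in the honeycomb lattice (brick-wall coordinates). -/
def Nbr (p q : ℤ × ℤ) : Prop :=
  (p.2 = q.2 ∧ (p.1 - q.1 = 1 ∨ q.1 - p.1 = 1)) ∨
    (p.1 = q.1 ∧ ((q.2 = p.2 + 1 ∧ Even (p.1 + p.2)) ∨ (p.2 = q.2 + 1 ∧ Even (q.1 + q.2))))

/-- The self-avoiding trajectories from `a` to `b` in `D`, as lists of vertices. -/
def Traj (D : Set (ℤ × ℤ)) (a b : ℤ × ℤ) : Set (List (ℤ × ℤ)) :=
  {l | l.head? = some a ∧ l.getLast? = some b ∧ l.Nodup ∧ l.IsChain Nbr ∧ ∀ p ∈ l, p ∈ D}

/-- The position of the vertices in the plane: the honeycomb lattice with unit edge length. -/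
noncomputable def emb (v : ℤ × ℤ) : ℂ :=
  ⟨Real.sqrt 3 / 2 * v.1, 3 / 2 * v.2 + if Even (v.1 + v.2) then 1 / 2 else 0⟩

/-- The coordinate in the direction `u = exp (- i π / 6)`, one of the directions of the edges. -/
noncomputable def lv (z : ℂ) : ℝ := (Real.sqrt 3 * z.re - z.im) / 2

/-- The open half-disc with centre `a` and radius `r` on the side `ε u` of `a` (`ε = 1` or
`ε = -1`). -/
def HD (a : ℂ) (ε r : ℝ) : Set ℂ := {z | ‖z - a‖ < r ∧ 0 < ε * (lv z - lv a)}

/-- The vertices in the half-disc (with its diameter) with centre `δ p` and radius `r`, on the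
side `ε u` of `p`, for the lattice with mesh `δ`. -/
def Hd (δ ε r : ℝ) (p : ℤ × ℤ) : Set (ℤ × ℤ) :=
  {v | ‖(δ : ℂ) * emb v - δ * emb p‖ < r ∧ 0 ≤ ε * (lv (emb v) - lv (emb p))}

/-- `p` is the lattice point with an edge in the direction `- ε u`: a boundary vertex of a half-plane
on the side `ε u`. -/
def Bd (ε : ℝ) (p : ℤ × ℤ) : Prop :=
  (ε = 1 ∧ Odd (p.1 + p.2)) ∨ (ε = -1 ∧ Even (p.1 + p.2))

/-- The length `ℓ(γ)`: the number of edges of the trajectory. -/
def len (l : List (ℤ × ℤ)) : ℕ := l.length - 1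

/-- The hexagon with the lower left vertex `z` (`z.1 + z.2` even), given by its six vertices. -/
def hexagon (z : ℤ × ℤ) : Set (ℤ × ℤ) :=
  {v | (z.1 ≤ v.1 ∧ v.1 ≤ z.1 + 2) ∧ (z.2 ≤ v.2 ∧ v.2 ≤ z.2 + 1)}

/-- The path `l` is obtained from the path `l'`, which uses five edges of the hexagon `z`, by
replacing them by the sixth edge. -/
def Flip (z : ℤ × ℤ) (l l' : List (ℤ × ℤ)) : Prop :=
  Even (z.1 + z.2) ∧ ∃ (L R : List (ℤ × ℤ)) (a b c d e f : ℤ × ℤ), [a, b, c, d, e, f].Nodup ∧
    [a, b, c, d, e, f, a].IsChain Nbr ∧ (∀ x ∈ [a, b, c, d, e, f], x ∈ hexagon z) ∧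
    l = L ++ [a, f] ++ R ∧ l' = L ++ [a, b, c, d, e, f] ++ R

/-- The event `E` is blind off `S`: it does not distinguish between the paths `l`, `l'` from `p` to
`q` in `D` if `l` is obtained from `l'` by the replacement `Flip` at a hexagon which is not in
`S`. -/
def Blind (S : Finset (ℤ × ℤ)) (D : Set (ℤ × ℤ)) (p q : ℤ × ℤ) (E : List (ℤ × ℤ) → Prop) : Prop :=
  ∀ (z : ℤ × ℤ) (l l' : List (ℤ × ℤ)), z ∉ S → l ∈ Traj D p q → l' ∈ Traj D p q → Flip z l l' →
    (E l ↔ E l')

/-- `1` if the step from `x` to `y` crosses the horizontal ray from the centre of the hexagon `z` to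
the right upwards, `-1` if it crosses it downwards, `0` otherwise. -/
def crossStep (z x y : ℤ × ℤ) : ℤ :=
  if x.1 = y.1 ∧ z.1 + 2 ≤ x.1 ∧ x.2 = z.2 ∧ y.2 = z.2 + 1 then 1
  else if x.1 = y.1 ∧ z.1 + 2 ≤ x.1 ∧ x.2 = z.2 + 1 ∧ y.2 = z.2 then -1 else 0

/-- The algebraic number of crossings of the path with the ray from the centre of the hexagon `z` to
the right. -/
def cross (z : ℤ × ℤ) : List (ℤ × ℤ) → ℤ
  | x :: y :: l => crossStep z x y + cross z (y :: l)
  | _ => 0

/-- The critical weight (`x_c ^ ℓ`, `x_c = 1 / (2 + √2)^(1/2)`) of the trajectories from `p` to `q`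
in `D` with the property `E`. -/
noncomputable def weight (D : Set (ℤ × ℤ)) (p q : ℤ × ℤ) (E : List (ℤ × ℤ) → Prop) : ℝ :=
  ∑ᶠ l ∈ {l | l ∈ Traj D p q ∧ E l}, (1 / √(2 + √2)) ^ len l

/-- The probability of `E` for the critical self-avoiding walk from `p` to `q` in `D`. -/
noncomputable def prob (D : Set (ℤ × ℤ)) (p q : ℤ × ℤ) (E : List (ℤ × ℤ) → Prop) : ℝ :=
  weight D p q E / weight D p q (fun _ => True)

theorem cross_eq (z : ℤ × ℤ) : ∀ l : List (ℤ × ℤ), cross z l = Q214.ON.cross z l := by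
  intro l
  induction l with
  | nil => rfl
  | cons x l ih =>
    rcases l with _ | ⟨y, l⟩
    · rfl
    · have h1 : cross z (x :: y :: l) = crossStep z x y + cross z (y :: l) := rfl
      have h2 : Q214.ON.cross z (x :: y :: l) =
          Q214.ON.crossStep z x y + Q214.ON.cross z (y :: l) := rfl
      rw [h1, h2, ih]
      rfl

/-- **Theorem.** Let `Ω` be a connected open set of the plane, `a ≠ b` points such that `Ω` contains
a half-disc with centre `a` on the side `ε u` and a half-disc with centre `b` on the side `ε' u`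
(for instance interior points, or boundary points at which the boundary is a segment orthogonal to
`u`), and `M`, `J` numbers. There are a compact set `K ⊆ Ω` and `C ≥ 1` such that for every mesh
`δ ≤ 1 / C`, every set `D` of vertices with `δ D` in the disc of radius `M`, all boundary vertices `p`,
`q` with `δ p`, `δ q` at distance at most `1 / C` of `a`, `b`, such that `D` contains the vertices of
`K` and the half-discs of `p` and `q`, the critical path `γ` from `p` to `q` in `D` has the following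
properties.
(1) For all sets `S` of at most `J` hexagons and all events `E_n` which are blind off `S` (local
events at the hexagons of `S`, the homotopy class of the path in the complement of these hexagons,
...) the probabilities of `γ ∈ E_{ℓ(γ) + 4}` and of `γ ∈ E_{ℓ(γ)}` differ by at most
`C δ^(1/2) log (1/δ)`.
(2) For all hexagons `z_1, ..., z_J` and every property `U` the probabilities of `U (ℓ(γ) + 4,
crossing numbers of γ with the rays of z_1, ..., z_J)` and of `U (ℓ(γ), crossing numbers)` differ by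
at most `C δ^(1/2) log (1/δ)`. -/
theorem result (Ω : Set ℂ) (hΩ : IsOpen Ω) (hc : IsConnected Ω) (a b : ℂ) (hab : a ≠ b)
    (ε ε' : ℝ) (hε : ε = 1 ∨ ε = -1) (hε' : ε' = 1 ∨ ε' = -1) (r : ℝ) (hr : 0 < r)
    (ha : HD a ε r ⊆ Ω) (hb : HD b ε' r ⊆ Ω) (M : ℝ) (J : ℕ) :
    ∃ K : Set ℂ, K ⊆ Ω ∧ IsCompact K ∧ ∃ C : ℝ, 1 ≤ C ∧ ∀ δ : ℝ, 0 < δ → C * δ ≤ 1 →
      ∀ (D : Set (ℤ × ℤ)) (p q : ℤ × ℤ), Bd ε p → Bd ε' q →
      C * ‖(δ : ℂ) * emb p - a‖ ≤ 1 → C * ‖(δ : ℂ) * emb q - b‖ ≤ 1 →
      (∀ v : ℤ × ℤ, (δ : ℂ) * emb v ∈ K → v ∈ D) → Hd δ ε r p ⊆ D → Hd δ ε' r q ⊆ D →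
      (∀ v ∈ D, ‖(δ : ℂ) * emb v‖ ≤ M) →
      0 < weight D p q (fun _ => True) ∧
      (∀ S : Finset (ℤ × ℤ), S.card ≤ J → ∀ E : ℕ → List (ℤ × ℤ) → Prop,
        (∀ n, Blind S D p q (E n)) →
        |prob D p q (fun l => E (len l + 4) l) - prob D p q (fun l => E (len l) l)| ≤
          C * (√δ * Real.log (1 / δ))) ∧
      (∀ z : Fin J → ℤ × ℤ, (∀ i, Even ((z i).1 + (z i).2)) →
        ∀ U : ℕ → (Fin J → ℤ) → Prop,
        |prob D p q (fun l => U (len l + 4) (fun i => cross (z i) l)) -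
          prob D p q (fun l => U (len l) (fun i => cross (z i) l))| ≤
          C * (√δ * Real.log (1 / δ))) := by
  obtain ⟨K, hK1, hK2, C1, C, hC1, hC, h⟩ := Q214.SF.cont_data Ω hΩ hc a b hab ε ε' hε hε' r hr
    ha hb M
  obtain ⟨R, hR, hcrit⟩ := Q214.ON.hex_blind J
  refine ⟨K, hK1, hK2, C + R * C1, by have : 0 ≤ R * C1 := by positivity
                                      linarith, ?_⟩
  intro δ hδ hCδ D p q hp hq hpa hqb hKD hpD hqD hDM
  have hle : ∀ t : ℝ, 0 ≤ t → (C + R * C1) * t ≤ 1 → C * t ≤ 1 := by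
    intro t ht h1
    refine le_trans (mul_le_mul_of_nonneg_right ?_ ht) h1
    have : 0 ≤ R * C1 := by positivity
    linarith
  obtain ⟨h1, h2, h3, h4, h5, h6, h7⟩ := h δ hδ (hle _ hδ.le hCδ) D p q hp hq
    (hle _ (norm_nonneg _) hpa) (hle _ (norm_nonneg _) hqb) hKD hpD hqD hDM
  have key : ∀ S : Finset (ℤ × ℤ), S.card ≤ J → ∀ E : ℕ → List (ℤ × ℤ) → Prop,
      (∀ n, Blind S D p q (E n)) →
      |prob D p q (fun l => E (len l + 4) l) - prob D p q (fun l => E (len l) l)| ≤
        (C + R * C1) * (√δ * Real.log (1 / δ)) := ?_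
  · refine ⟨h2, key, fun z hz U => ?_⟩
    refine key (Finset.univ.image z) ?_ (fun n l => U n (fun i => cross (z i) l)) ?_
    · exact Finset.card_image_le.trans (by simp)
    · intro n
      have h9 := Q214.ON.blind_cross z hz D p q (U n)
      simp only [cross_eq]
      exact h9
  intro S hS E hE
  have h8 := hcrit D p q h1 h3 h2 _ h6 h7 S hS E hE
  have h9 := Q214.SF.err_le hC1 hδ h4 h5
  refine le_trans h8 ?_
  have h10 : 0 ≤ √δ * Real.log (1 / δ) := by positivity
  calc R * √(C1 * Real.log (1 / δ) ^ 2 / ‖Pool.Agent.W832.HR.emb p - Pool.Agent.W832.HR.emb q‖) ≤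
        R * (C1 * (√δ * Real.log (1 / δ))) := mul_le_mul_of_nonneg_left h9 hR.le
    _ = R * C1 * (√δ * Real.log (1 / δ)) := by ring
    _ ≤ (C + R * C1) * (√δ * Real.log (1 / δ)) :=
        mul_le_mul_of_nonneg_right (by linarith) h10

end Pool.Agent.Results.MP_4960b8_pr.SidesOfHexagons
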